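import Mathlib

namespace Pool.Agent.Results.MP_c4d24c_al.Counter

@[ext] structure S where
  i : ℕ
  k : ℕ
  j : ℕ
  h1 : k ≤ i
  h2 : k ≤ j

instance : Semigroup S where
  mul a b := ⟨a.i, min a.k b.k, b.j, (min_le_left _ _).trans a.h1, (min_le_right _ _).trans b.h2⟩
  mul_assoc a b c := S.ext rfl (min_assoc _ _ _) rfl

theorem mul_i (a b : S) : (a * b).i = a.i := rfl
theorem mul_k (a b : S) : (a * b).k = min a.k b.k := rfl
theorem mul_j (a b : S) : (a * b).j = b.j := rfl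

theorem stab {α : Type} (I : ℕ → α) (μ : ℕ → ℕ) (h1 : ∀ n, μ (n + 1) ≤ μ n)
    (h2 : ∀ n, μ (n + 1) = μ n → I (n + 1) = I n) : ∃ N, ∀ n, N ≤ n → I n = I N := by
  obtain ⟨N, hN⟩ := WellFounded.has_min wellFounded_lt (Set.range μ) ⟨_, 0, rfl⟩
  obtain ⟨⟨N, rfl⟩, hN⟩ := hN
  have ha : Antitone μ := antitone_nat_of_succ_le h1
  refine ⟨N, fun n hn => ?_⟩
  induction n, hn using Nat.le_induction with
  | base => rfl
  | succ n hn ih =>
    rw [h2 n, ih]
    have a1 := hN _ ⟨n + 1, rfl⟩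
    have a2 := ha hn
    have a3 := h1 n
    omega

def μL : WithOne S → ℕ := WithOne.recOneCoe 0 fun a => a.j - a.k + 1
def μR : WithOne S → ℕ := WithOne.recOneCoe 0 fun a => a.i - a.k + 1

theorem keyL (x y h : WithOne S) (e : h * y = x) :
    μL y ≤ μL x ∧ (μL y = μL x → ∃ g, g * x = y) := by
  subst e
  induction h using WithOne.recOneCoe with
  | one => simp only [one_mul, le_refl, true_and]; exact fun _ => ⟨1, one_mul _⟩
  | coe h =>
    induction y using WithOne.recOneCoe with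
    | one => exact ⟨Nat.zero_le _, fun e => absurd e (by rw [mul_one]; exact (Nat.succ_ne_zero _).symm)⟩
    | coe y =>
      rw [← WithOne.coe_mul]
      have := y.h2
      refine ⟨show y.j - y.k + 1 ≤ y.j - min h.k y.k + 1 by omega, fun e => ⟨y, ?_⟩⟩
      have e' : y.j - y.k + 1 = y.j - min h.k y.k + 1 := e
      rw [← WithOne.coe_mul]
      congr 1
      refine S.ext rfl ?_ rfl
      rw [mul_k, mul_k]
      omega

theorem keyR (x y h : WithOne S) (e : y * h = x) :
    μR y ≤ μR x ∧ (μR y = μR x → ∃ g, x * g = y) := by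
  subst e
  induction h using WithOne.recOneCoe with
  | one => simp only [mul_one, le_refl, true_and]; exact fun _ => ⟨1, mul_one _⟩
  | coe h =>
    induction y using WithOne.recOneCoe with
    | one => exact ⟨Nat.zero_le _, fun e => absurd e (by rw [one_mul]; exact (Nat.succ_ne_zero _).symm)⟩
    | coe y =>
      rw [← WithOne.coe_mul]
      have := y.h1
      refine ⟨show y.i - y.k + 1 ≤ y.i - min y.k h.k + 1 by omega, fun e => ⟨y, ?_⟩⟩
      have e' : y.i - y.k + 1 = y.i - min y.k h.k + 1 := e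
      rw [← WithOne.coe_mul]
      congr 1
      refine S.ext rfl ?_ rfl
      rw [mul_k, mul_k]
      omega

def kk : WithOne S → ℕ∞ := WithOne.recOneCoe ⊤ fun a => a.k

theorem kk_mul (x y : WithOne S) : kk (x * y) = min (kk x) (kk y) := by
  induction x using WithOne.recOneCoe with
  | one => rw [one_mul]; exact (min_top_left _).symm
  | coe x =>
    induction y using WithOne.recOneCoe with
    | one => rw [mul_one]; exact (min_top_right _).symm
    | coe y =>
      rw [← WithOne.coe_mul]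
      exact Nat.mono_cast.map_min

theorem result : ∃ (H : Type) (_ : Monoid H),
    (∀ x : ℕ → H, (∀ n, {y | ∃ h, y = h * x n} ⊆ {y | ∃ h, y = h * x (n + 1)}) →
      ∃ N, ∀ n, N ≤ n → {y | ∃ h, y = h * x n} = {y | ∃ h, y = h * x N}) ∧
    (∀ x : ℕ → H, (∀ n, {y | ∃ h, y = x n * h} ⊆ {y | ∃ h, y = x (n + 1) * h}) →
      ∃ N, ∀ n, N ≤ n → {y | ∃ h, y = x n * h} = {y | ∃ h, y = x N * h}) ∧
    ∃ x : ℕ → H, ∀ n, {y | ∃ h k, y = h * x n * k} ⊂ {y | ∃ h k, y = h * x (n + 1) * k} := by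
  refine ⟨WithOne S, inferInstance, fun x hx => ?_, fun x hx => ?_,
    fun n => ((⟨n, n, n, le_rfl, le_rfl⟩ : S) : WithOne S), fun n => ⟨?_, fun h => ?_⟩⟩
  · have h : ∀ n, ∃ h, h * x (n + 1) = x n := fun n => by
      obtain ⟨h, hh⟩ := hx n ⟨1, (one_mul _).symm⟩
      exact ⟨h, hh.symm⟩
    choose h hh using h
    refine stab (fun n => {y | ∃ h, y = h * x n}) (fun n => μL (x n))
      (fun n => (keyL _ _ _ (hh n)).1) fun n e => subset_antisymm ?_ (hx n)
    obtain ⟨g, hg⟩ := (keyL _ _ _ (hh n)).2 e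
    rintro _ ⟨t, rfl⟩
    exact ⟨t * g, by rw [mul_assoc, hg]⟩
  · have h : ∀ n, ∃ h, x (n + 1) * h = x n := fun n => by
      obtain ⟨h, hh⟩ := hx n ⟨1, (mul_one _).symm⟩
      exact ⟨h, hh.symm⟩
    choose h hh using h
    refine stab (fun n => {y | ∃ h, y = x n * h}) (fun n => μR (x n))
      (fun n => (keyR _ _ _ (hh n)).1) fun n e => subset_antisymm ?_ (hx n)
    obtain ⟨g, hg⟩ := (keyR _ _ _ (hh n)).2 e
    rintro _ ⟨t, rfl⟩
    exact ⟨g * t, by rw [← mul_assoc, hg]⟩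
  · rintro _ ⟨h, k, rfl⟩
    let a : S := ⟨n, n, n, le_rfl, le_rfl⟩
    let b : S := ⟨n + 1, n + 1, n + 1, le_rfl, le_rfl⟩
    have : a = a * b * a := S.ext rfl (by simp [mul_k, a, b]) rfl
    refine ⟨h * a, a * k, ?_⟩
    show h * (a : WithOne S) * k = h * a * b * (a * k)
    conv_lhs => rw [this]
    simp only [WithOne.coe_mul, mul_assoc]
  · obtain ⟨a, b, e⟩ := h ⟨1, 1, (by rw [one_mul, mul_one])⟩
    have h1 := congrArg kk e
    rw [kk_mul, kk_mul] at h1
    have h2 : ((n + 1 : ℕ) : ℕ∞) ≤ (n : ℕ) :=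
      h1.le.trans ((min_le_left _ _).trans (min_le_right _ _))
    have := Nat.cast_le.1 h2
    omega

end Pool.Agent.Results.MP_c4d24c_al.Counter
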